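import Pool.Agent.MP_16ca68_co.A.Def

/-!
The tables are consistent.
-/

set_option autoImplicit false

namespace Pool.Agent.MP_16ca68_co.A

lemma T5_0_ok : T5_0.all c5.good = true := by decide +kernel

lemma T5_1_ok : T5_1.all c5.good = true := by decide +kernel

lemma T5_2_ok : T5_2.all c5.good = true := by decide +kernel

lemma T5_3_ok : T5_3.all c5.good = true := by decide +kernel

lemma T5_4_ok : T5_4.all c5.good = true := by decide +kernel

lemma T5_5_ok : T5_5.all c5.good = true := by decide +kernel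

lemma T5_6_ok : T5_6.all c5.good = true := by decide +kernel

lemma T5_7_ok : T5_7.all c5.good = true := by decide +kernel

lemma T5_8_ok : T5_8.all c5.good = true := by decide +kernel

lemma T5_9_ok : T5_9.all c5.good = true := by decide +kernel

lemma T5_10_ok : T5_10.all c5.good = true := by decide +kernel

lemma T5_11_ok : T5_11.all c5.good = true := by decide +kernel

lemma T5_12_ok : T5_12.all c5.good = true := by decide +kernel

lemma T5_13_ok : T5_13.all c5.good = true := by decide +kernel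

lemma T5_14_ok : T5_14.all c5.good = true := by decide +kernel

lemma T5_15_ok : T5_15.all c5.good = true := by decide +kernel

lemma T5_ok : c5.T.all c5.good = true := by
  simp only [c5, T5, Bt.all_nd]
  exact ⟨⟨⟨⟨T5_0_ok, T5_1_ok⟩, ⟨T5_2_ok, T5_3_ok⟩⟩, ⟨⟨T5_4_ok, T5_5_ok⟩, ⟨T5_6_ok, T5_7_ok⟩⟩⟩,
    ⟨⟨⟨T5_8_ok, T5_9_ok⟩, ⟨T5_10_ok, T5_11_ok⟩⟩, ⟨⟨T5_12_ok, T5_13_ok⟩, ⟨T5_14_ok,
    T5_15_ok⟩⟩⟩⟩

lemma T3_ok : c3.T.all c3.good = true := by decide +kernel

end Pool.Agent.MP_16ca68_co.A
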