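import Pool.Agent.MP_16ca68_co.A.Def

/-!
Evaluation of the certificate on part of the list.
-/

set_option autoImplicit false

namespace Pool.Agent.MP_16ca68_co.A

lemma ev_8 : allLt (fun k => ok (Nat.add 2048 k)) 256 = true := by decide +kernel

lemma ev_9 : allLt (fun k => ok (Nat.add 2304 k)) 256 = true := by decide +kernel

lemma ev_10 : allLt (fun k => ok (Nat.add 2560 k)) 256 = true := by decide +kernel

lemma ev_11 : allLt (fun k => ok (Nat.add 2816 k)) 256 = true := by decide +kernel

lemma ev_12 : allLt (fun k => ok (Nat.add 3072 k)) 256 = true := by decide +kernel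

lemma ev_13 : allLt (fun k => ok (Nat.add 3328 k)) 256 = true := by decide +kernel

lemma ev_14 : allLt (fun k => ok (Nat.add 3584 k)) 256 = true := by decide +kernel

lemma ev_15 : allLt (fun k => ok (Nat.add 3840 k)) 256 = true := by decide +kernel


end Pool.Agent.MP_16ca68_co.A
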