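import Pool.Agent.MP_16ca68_co.A.Ev0

/-!
Evaluation of the certificate on part of the list.
-/

set_option autoImplicit false

namespace Pool.Agent.MP_16ca68_co.A

lemma ev_16 : allLt (fun k => ok (Nat.add 4096 k)) 256 = true := by decide +kernel

lemma ev_17 : allLt (fun k => ok (Nat.add 4352 k)) 256 = true := by decide +kernel

lemma ev_18 : allLt (fun k => ok (Nat.add 4608 k)) 256 = true := by decide +kernel

lemma ev_19 : allLt (fun k => ok (Nat.add 4864 k)) 256 = true := by decide +kernel

lemma ev_20 : allLt (fun k => ok (Nat.add 5120 k)) 256 = true := by decide +kernel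

lemma ev_21 : allLt (fun k => ok (Nat.add 5376 k)) 256 = true := by decide +kernel

lemma ev_22 : allLt (fun k => ok (Nat.add 5632 k)) 256 = true := by decide +kernel

lemma ev_23 : allLt (fun k => ok (Nat.add 5888 k)) 256 = true := by decide +kernel


end Pool.Agent.MP_16ca68_co.A
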