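import Pool.Agent.MP_16ca68_co.A.Chk
import Pool.Agent.MP_16ca68_co.A.Ev2
import Pool.Agent.MP_16ca68_co.A.Ev3
import Pool.Agent.MP_16ca68_co.Cls

/-!
The certificate is valid.
-/

set_option autoImplicit false

namespace Pool.Agent.MP_16ca68_co.A

lemma ok_all (j : ℕ) (hj : j < 8157) : ok j = true := by
  have key : ∀ lo n, allLt (fun k => ok (Nat.add lo k)) n = true → lo ≤ j → j < lo + n →
      ok j = true := fun lo n h h1 h2 => by
    have := allLt_spec h (j - lo) (by omega)
    rwa [Nat.add_eq, Nat.add_sub_cancel' h1] at this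
  rcases lt_or_ge j 256 with h | h0
  · exact key _ _ ev_0 (by omega) h
  rcases lt_or_ge j 512 with h | h1
  · exact key _ _ ev_1 (by omega) h
  rcases lt_or_ge j 768 with h | h2
  · exact key _ _ ev_2 (by omega) h
  rcases lt_or_ge j 1024 with h | h3
  · exact key _ _ ev_3 (by omega) h
  rcases lt_or_ge j 1280 with h | h4
  · exact key _ _ ev_4 (by omega) h
  rcases lt_or_ge j 1536 with h | h5
  · exact key _ _ ev_5 (by omega) h
  rcases lt_or_ge j 1792 with h | h6
  · exact key _ _ ev_6 (by omega) h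
  rcases lt_or_ge j 2048 with h | h7
  · exact key _ _ ev_7 (by omega) h
  rcases lt_or_ge j 2304 with h | h8
  · exact key _ _ ev_8 (by omega) h
  rcases lt_or_ge j 2560 with h | h9
  · exact key _ _ ev_9 (by omega) h
  rcases lt_or_ge j 2816 with h | h10
  · exact key _ _ ev_10 (by omega) h
  rcases lt_or_ge j 3072 with h | h11
  · exact key _ _ ev_11 (by omega) h
  rcases lt_or_ge j 3328 with h | h12
  · exact key _ _ ev_12 (by omega) h
  rcases lt_or_ge j 3584 with h | h13
  · exact key _ _ ev_13 (by omega) h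
  rcases lt_or_ge j 3840 with h | h14
  · exact key _ _ ev_14 (by omega) h
  rcases lt_or_ge j 4096 with h | h15
  · exact key _ _ ev_15 (by omega) h
  rcases lt_or_ge j 4352 with h | h16
  · exact key _ _ ev_16 (by omega) h
  rcases lt_or_ge j 4608 with h | h17
  · exact key _ _ ev_17 (by omega) h
  rcases lt_or_ge j 4864 with h | h18
  · exact key _ _ ev_18 (by omega) h
  rcases lt_or_ge j 5120 with h | h19
  · exact key _ _ ev_19 (by omega) h
  rcases lt_or_ge j 5376 with h | h20
  · exact key _ _ ev_20 (by omega) h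
  rcases lt_or_ge j 5632 with h | h21
  · exact key _ _ ev_21 (by omega) h
  rcases lt_or_ge j 5888 with h | h22
  · exact key _ _ ev_22 (by omega) h
  rcases lt_or_ge j 6144 with h | h23
  · exact key _ _ ev_23 (by omega) h
  rcases lt_or_ge j 6400 with h | h24
  · exact key _ _ ev_24 (by omega) h
  rcases lt_or_ge j 6656 with h | h25
  · exact key _ _ ev_25 (by omega) h
  rcases lt_or_ge j 6912 with h | h26
  · exact key _ _ ev_26 (by omega) h
  rcases lt_or_ge j 7168 with h | h27
  · exact key _ _ ev_27 (by omega) h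
  rcases lt_or_ge j 7424 with h | h28
  · exact key _ _ ev_28 (by omega) h
  rcases lt_or_ge j 7680 with h | h29
  · exact key _ _ ev_29 (by omega) h
  rcases lt_or_ge j 7936 with h | h30
  · exact key _ _ ev_30 (by omega) h
  exact key _ _ ev_31 (by omega) hj

theorem dense (ε : ℝ) (hε : 0 < ε) (t : ℕ) (ht : 3 ≤ t) :
    ∃ n₀ : ℕ, ∀ n : ℕ, n₀ ≤ n → ∀ H : Finset (Finset (Fin n)), (∀ e ∈ H, e.card = 3) →
      (((16494000 : ℕ) : ℝ) / (60000000 : ℕ) + ε) * (n.choose 3 : ℝ) ≤ (H.card : ℝ) →
      ∃ S : Finset (Fin n), S.card = t ∧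
        ((5 : ℕ) : ℝ) / (18 : ℕ) * (t.choose 3 : ℝ) ≤
          ((H.filter fun e => e ⊆ S).card : ℝ) := by
  refine jump_of_f0 _ _ (by norm_num) 32 c3.r c5.v c3.v _ (by norm_num) (fun G hG => ?_) ε hε t ht
  by_cases hK : NoK G
  · obtain ⟨π, hπ, j, hj, e⟩ := classify7 hG hK
    have h := ok_all j hj
    rw [ok, force_eq, ← e] at h
    refine ⟨π, hπ, (okB_spec h).imp (heavyB_spec (by norm_num) (hG.lab π)) fun h' => ?_⟩
    exact val_spec c5 c3 T5_ok T3_ok 1488 16494000 28171415744640 (by decide +kernel)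
      (by decide +kernel) (by norm_num) (hG.lab π) h'
  · exact ⟨id, Function.injective_id, Or.inl (heavy_of_not_noK hG hK (by norm_num))⟩

end Pool.Agent.MP_16ca68_co.A
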